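import Pool.Agent.P8H47.EC3.Sym

/-!
# The decomposition groups of the minimal compatible subgroups split off together, `p` odd

`F` is a field with a primitive `p`-th root of unity, `p` odd, `F*/F*^p` is finite, `K = F(p)` is the
maximal `p`-extension and `G = Gal(K/F)`. The Steinberg symbols `F* × F* → ℤ/p` form the dual of
`K_2(F)/p`, which is isomorphic to `H²(G, ℤ/p)` (Merkurjev and Suslin); `H¹(G, ℤ/p)` is `F*/F*^p`.

The conjecture says that `G` is a free pro-`p` product of groups `ℤ_p` and of decomposition groups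
with nontrivial inertia. So `H¹` and `H²` of `G` should be direct sums. The theorem proves this for
all the decomposition groups which come from valuations with residue characteristic `≠ p`.

A valuation ring `O` of `F` with maximal ideal `m` is compatible with a subgroup `T` of `F*` if
`p ∈ O*`, `1 + m ⊆ T` and `O* T ≠ F*`. `T ⊇ F*^p` is minimal if it has a compatible valuation ring and no
smaller such group has one.

Theorem. Let `T_1`, ..., `T_r` be different minimal subgroups and `D` their intersection. There are closed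
subgroups `H_1`, ..., `H_r` of `G` with fixed fields `E_1`, ..., `E_r` such that
1. `H_i` is the decomposition group of a valuation of `K`, with nontrivial inertia,
   `T_i = F* ∩ E_i*^p` and `E_i* = F* E_i*^p`. So `T_i/F*^p` is the kernel of the restriction
   `H¹(G) → H¹(H_i)`, and the restriction is surjective.
2. `F* → ∏ E_i*/E_i*^p` is surjective (the kernel is `D`): `H¹(G) → ∏ H¹(H_i)` is surjective.
3. For `t ∈ D` and `x ∈ F*` there is `z ∈ x D` with `1 + z ∈ t F*^p`. So every element of `F*` is the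
   product of an element of `D` and of a norm from `F(t^(1/p))`, and `{D, F*} = {D, D}` in `K_2(F)/p`.
4. If `c_1`, ..., `c_r` are symbols on the fields `E_i`, the sum of their restrictions to `F` is a symbol
   which vanishes on `D × F*`. All symbols on `F` which vanish on `D × D` are of this form, in a unique
   way. So `K_2(F)/p → ∏ K_2(E_i)/p` is surjective with kernel `{D, D}`.
5. If `[D : F*^p] ≤ p` then all symbols on `F` are of this form, in a unique way: in this case
   `K_2(F)/p = ∏ K_2(E_i)/p` and the cohomology is that of the free product of the `H_i` and of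
   `[D : F*^p] = 1` or `p` copies of the trivial group or of `ℤ_p`.
6. If `[D : F*^p] = p ^ d` and `[F* : T_i] = p ^ (m_i)` then there are at most
   `p ^ (d (d - 1) / 2 + Σ m_i (m_i - 1) / 2)` symbols on `F`.

Outline. For `T` minimal, with `O`, let `J(T')`, `T' < T`, be the set of the `y ∈ m` with
`1 + y O ⊆ T'`; it is a prime ideal of `O`. Let `J` be the largest of them. Then every class modulo `T` meets
`m \ J`, and `T = (1 + y² O) F*^p` for all `y ∈ m \ J`. For different minimal subgroups the elements of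
`m_i \ J_i` are units of `O_i O_j`, which gives an approximation theorem for the rings `O_i` (they may
be dependent): for `a_i` units of all `O_i O_j` and `n_i ∈ m_i \ J_i` there is
`c ∈ a_i (1 + n_i O_i)` for all `i`. It gives 2, 3 and that `{x, y} ∈ {D, F*}` if every `T_i` contains
`x` or `y`, and this gives 4. For 1 let `O_K` be an extension of `O` to `K` and `E` the fixed field of
its decomposition group `H`. A cyclic extension of degree `p` generated by a root of an element of
`1 + m` is immediate (approximation again); so a maximal immediate extension of `F` in `E`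
contains the `p`-th roots of its elements in `1 + m`, it has a unique extension of the
valuation ring to `K`, and is equal to `E`.

Proved in Lean by helper47, with the approximation theorem by helper55, immediate cyclic extensions by
helper54, the maximal `p`-extension (roots, uniqueness) and bounds by helper48, counting lemmas by
helper63 and helper72.
-/

set_option autoImplicit false

namespace Pool.Agent.Results.MP_600e55_nt.SimultaneousSplitting

open Pool.Agent.Results.MP_600e55_nt.SymbolPartitions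
open Pool.Agent.Results.MP_600e55_nt.ManySymbols (Symbols)
open IntermediateField (fixedField)

/-- the valuation ring `O` is compatible with `T`: `p` is a unit of `O`, `1 + m ⊆ T`, and
`O* T ≠ F*` -/
structure Compatible {F : Type} [Field F] (p : ℕ) (T : Subgroup Fˣ) (O : ValuationSubring F) :
    Prop where
  inv_mem : (p : F)⁻¹ ∈ O
  one_add : ∀ x : F, x ∈ O → x⁻¹ ∉ O → ∃ t ∈ T, (t : F) = 1 + x
  ne_top : O.unitGroup ⊔ T ≠ ⊤

/-- `T` is minimal among the subgroups containing `F*^p` which have a compatible valuation ring -/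
structure IsMinimal {F : Type} [Field F] (p : ℕ) (T : Subgroup Fˣ) : Prop where
  le : powers F p ≤ T
  exists_compatible : ∃ O : ValuationSubring F, Compatible p T O
  minimal : ∀ T' : Subgroup Fˣ, powers F p ≤ T' → T' < T →
    ¬ ∃ O : ValuationSubring F, Compatible p T' O

/-- the embedding `F* → E*` -/
noncomputable def emb (F E : Type) [Field F] [Field E] [Algebra F E] : Fˣ →* Eˣ :=
  Units.map (algebraMap F E : F →* E)

section

variable {F : Type} [Field F] {K : IntermediateField F (AlgebraicClosure F)}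

/-- the Galois group `Gal(K/F)` -/
def GaloisGroup (K : IntermediateField F (AlgebraicClosure F)) : Type := ↥K ≃ₐ[F] ↥K

noncomputable instance : Group (GaloisGroup K) := AlgEquiv.aut

noncomputable instance : TopologicalSpace (GaloisGroup K) := krullTopology F ↥K

/-- the fixed field of a subgroup of `Gal(K/F)` -/
def FixedField (H : Subgroup (GaloisGroup K)) : Type := ↥(fixedField (F := F) (E := ↥K) H)

noncomputable instance (H : Subgroup (GaloisGroup K)) : Field (FixedField H) :=
  IntermediateField.toField (fixedField (F := F) (E := ↥K) H)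

noncomputable instance (H : Subgroup (GaloisGroup K)) : Algebra F (FixedField H) :=
  IntermediateField.algebra' (fixedField (F := F) (E := ↥K) H)

/-- `H` is a closed subgroup of `Gal(K/F)`, the decomposition group of a valuation with nontrivial
inertia, and for its fixed field `E`: `T = F* ∩ E*^p` and `E* = F* E*^p` -/
structure BelongsTo (p : ℕ) (H : Subgroup (GaloisGroup K)) (T : Subgroup Fˣ) : Prop where
  closed : IsClosed (H : Set (GaloisGroup K))
  decomposition : IsDecompositionGroup (K := K) H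
  kernel : ∀ x : Fˣ, x ∈ T ↔ ∃ y : (FixedField H)ˣ, emb F (FixedField H) x = y ^ p
  surjective : ∀ y : (FixedField H)ˣ, ∃ x : Fˣ, ∃ w : (FixedField H)ˣ,
    y = emb F (FixedField H) x * w ^ p

/-- `F* → ∏ (E i)*/(E i)*^p` is surjective, `E i` the fixed field of `H i` -/
def JointlyOnto (p : ℕ) {ι : Type} (H : ι → Subgroup (GaloisGroup K)) : Prop :=
  ∀ y : (i : ι) → (FixedField (H i))ˣ, ∃ x : Fˣ, ∀ i, ∃ w : (FixedField (H i))ˣ,
    emb F (FixedField (H i)) x = y i * w ^ p

end

/-- for `t ∈ D` and `x ∈ F*` there is `z ∈ x D` with `1 + z ∈ t F*^p` -/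
def Splitting (p : ℕ) {F : Type} [Field F] (D : Subgroup Fˣ) : Prop :=
  ∀ t ∈ D, ∀ x : Fˣ, ∃ z c : Fˣ, x⁻¹ * z ∈ D ∧ (1 : F) + z = t * c ^ p

/-- the function `(x, y) ↦ Σ c i x y`, for symbols `c i` on extension fields `E i` of `F` -/
noncomputable def sumFun {F : Type} [Field F] {p : ℕ} {ι : Type} [Fintype ι] {E : ι → Type}
    [∀ i, Field (E i)] [∀ i, Algebra F (E i)] (c : (i : ι) → Symbols (E i) p) (x y : Fˣ) : ZMod p :=
  ∑ i, (c i).1 (emb F (E i) x) (emb F (E i) y)

/-- the sum of the restrictions to `F` of symbols `c i` on extension fields `E i` -/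
noncomputable def sumRestrict {F : Type} [Field F] {p : ℕ} {ι : Type} [Fintype ι] {E : ι → Type}
    [∀ i, Field (E i)] [∀ i, Algebra F (E i)] (c : (i : ι) → Symbols (E i) p) : Symbols F p :=
  ⟨sumFun c, by
    intro a b x
    unfold sumFun
    rw [← Finset.sum_add_distrib]
    exact Finset.sum_congr rfl fun i _ => by rw [map_mul, (c i).2.1], by
    intro x a b
    unfold sumFun
    rw [← Finset.sum_add_distrib]
    exact Finset.sum_congr rfl fun i _ => by rw [map_mul, (c i).2.2.1], by
    intro x y hxy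
    refine Finset.sum_eq_zero fun i _ => (c i).2.2.2 _ _ ?_
    change algebraMap F (E i) x + algebraMap F (E i) y = 1
    rw [← map_add, hxy, map_one]⟩

/-- the sum of the restrictions of symbols on the fixed fields of the groups `H i` -/
noncomputable def addUp (p : ℕ) {F : Type} [Field F]
    {K : IntermediateField F (AlgebraicClosure F)} {ι : Type} [Fintype ι]
    (H : ι → Subgroup (GaloisGroup K)) (f : (i : ι) → Symbols (FixedField (H i)) p) : Symbols F p :=
  sumRestrict f

/-- adding up is injective, its image is the set of the symbols vanishing on `D × D`, these vanish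
on `D × F*` and `F* × D`, and it is bijective if `[D : F*^p] ≤ p` -/
structure SymbolsSplit (p : ℕ) {F : Type} [Field F]
    {K : IntermediateField F (AlgebraicClosure F)} {ι : Type} [Fintype ι]
    (H : ι → Subgroup (GaloisGroup K)) (D : Subgroup Fˣ) : Prop where
  injective : Function.Injective (addUp p H)
  image : ∀ c : Symbols F p, (∀ s ∈ D, ∀ t ∈ D, c.1 s t = 0) ↔ ∃ f, addUp p H f = c
  vanish : ∀ f, ∀ t ∈ D, ∀ x : Fˣ, (addUp p H f).1 t x = 0 ∧ (addUp p H f).1 x t = 0
  bijective : (powers F p).relIndex D ≤ p → Function.Bijective (addUp p H)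

/-- there are finitely many symbols, and if `[D : F*^p] = p ^ d`, `D` the intersection of the `T i`, and
`[F* : T i] = p ^ (m i)` there are at most `p ^ (d (d - 1) / 2 + Σ m i (m i - 1) / 2)` symbols -/
def CardBound (p : ℕ) {F : Type} [Field F] {ι : Type} [Fintype ι] (T : ι → Subgroup Fˣ) : Prop :=
  Finite (Symbols F p) ∧
  ∀ d : ℕ, (powers F p).relIndex (⨅ i, T i) = p ^ d → ∀ m : ι → ℕ,
    (∀ i, (T i).index = p ^ m i) →
    Nat.card (Symbols F p) ≤ p ^ (d * (d - 1) / 2 + ∑ i, m i * (m i - 1) / 2)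

open Pool.Agent.P8H47.EC in
theorem cp_iff {F : Type} [Field F] {p : ℕ} {T : Subgroup Fˣ} {O : ValuationSubring F} :
    Cp p T O ↔ Compatible p T O :=
  ⟨fun h => ⟨h.1, h.2, h.3⟩, fun h => ⟨h.1, h.2, h.3⟩⟩

open Pool.Agent.P8H47.EC in
theorem minCp_iff {F : Type} [Field F] {p : ℕ} {T : Subgroup Fˣ} :
    MinCp p T ↔ IsMinimal p T := by
  constructor
  · rintro ⟨h1, ⟨O, h2⟩, h3⟩
    exact ⟨h1, ⟨O, cp_iff.1 h2⟩, fun T' h4 h5 ⟨O', h6⟩ => h3 T' h4 h5 ⟨O', cp_iff.2 h6⟩⟩
  · rintro ⟨h1, ⟨O, h2⟩, h3⟩
    exact ⟨h1, ⟨O, cp_iff.2 h2⟩, fun T' h4 h5 ⟨O', h6⟩ => h3 T' h4 h5 ⟨O', cp_iff.1 h6⟩⟩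

/-- the bound for the number of symbols, for a model of `F*/F*^p` -/
theorem card_core (p : ℕ) [Fact p.Prime] (hp2 : p ≠ 2) (F : Type) [Field F] (hpF : (p : F) ≠ 0)
    (hfin : (powers F p).index ≠ 0) {ι : Type} [Fintype ι] [Nonempty ι] (T : ι → Subgroup Fˣ)
    (hT : ∀ i, IsMinimal p (T i)) (hinj : Function.Injective T) (d : ℕ)
    (hd : (powers F p).relIndex (⨅ i, T i) = p ^ d) (m : ι → ℕ)
    (hm : ∀ i, (T i).index = p ^ m i)
    (V : Type) [AddCommGroup V] [Module (ZMod p) V] [Finite V]
    (q : Fˣ → V) (hq : ∀ a b, q (a * b) = q a + q b) (hsur : Function.Surjective q)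
    (hk : ∀ a, q a = 0 ↔ a ∈ powers F p) :
    Nat.card (Symbols F p) ≤ p ^ (d * (d - 1) / 2 + ∑ i, m i * (m i - 1) / 2) := by
  have hcard : Nat.card (Symbols F p) =
      Nat.card {c : Fˣ → Fˣ → ZMod p // Pool.Agent.N908.FR.IsSymbol p F c} := by
    refine Nat.card_congr (Equiv.subtypeEquivRight fun c => ?_)
    exact ⟨fun h => ⟨h.1, h.2.1, h.2.2⟩, fun h => ⟨h.1, h.2, h.3⟩⟩
  rw [hcard]
  exact Pool.Agent.P8H47.EC2.sim_card hpF (Pool.Agent.N908.FR.neg_one_mem hp2) hfin T
    (fun i => minCp_iff.2 (hT i)) hinj hq hsur hk d hd m hm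

/-- the bound for the number of symbols -/
theorem card_le (p : ℕ) [Fact p.Prime] (hp2 : p ≠ 2) (F : Type) [Field F] (hpF : (p : F) ≠ 0)
    (hfin : (powers F p).index ≠ 0) {ι : Type} [Fintype ι] [Nonempty ι] (T : ι → Subgroup Fˣ)
    (hT : ∀ i, IsMinimal p (T i)) (hinj : Function.Injective T) (d : ℕ)
    (hd : (powers F p).relIndex (⨅ i, T i) = p ^ d) (m : ι → ℕ)
    (hm : ∀ i, (T i).index = p ^ m i) :
    Nat.card (Symbols F p) ≤ p ^ (d * (d - 1) / 2 + ∑ i, m i * (m i - 1) / 2) := by
  let iG : AddCommGroup (Additive (Fˣ ⧸ powers F p)) := inferInstance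
  have hz : ∀ x : Additive (Fˣ ⧸ powers F p), p • x = 0 := fun x => by
    obtain ⟨a, ha⟩ := QuotientGroup.mk_surjective (Additive.toMul x)
    have h1 : p • x = Additive.ofMul ((QuotientGroup.mk a : Fˣ ⧸ powers F p) ^ p) := by
      rw [ha]
      rfl
    rw [h1, ofMul_eq_zero, ← QuotientGroup.mk_pow, QuotientGroup.eq_one_iff]
    exact ⟨a, rfl⟩
  let _ : Module (ZMod p) (Additive (Fˣ ⧸ powers F p)) := AddCommGroup.zmodModule hz
  have hFin : Finite (Additive (Fˣ ⧸ powers F p)) := by
    have : (powers F p).FiniteIndex := ⟨hfin⟩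
    exact inferInstanceAs (Finite (Fˣ ⧸ powers F p))
  refine card_core p hp2 F hpF hfin T hT hinj d hd m hm (Additive (Fˣ ⧸ powers F p))
    (fun a => Additive.ofMul (QuotientGroup.mk a)) (fun a b => rfl) ?_ ?_
  · intro x
    obtain ⟨a, ha⟩ := QuotientGroup.mk_surjective (Additive.toMul x)
    exact ⟨a, congrArg Additive.ofMul ha⟩
  · intro a
    change Additive.ofMul (QuotientGroup.mk a : Fˣ ⧸ powers F p) = 0 ↔ _
    rw [ofMul_eq_zero, QuotientGroup.eq_one_iff]

/-- a symbol is determined by its values on representatives modulo `F*^p` -/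
theorem symbols_finite (p : ℕ) [Fact p.Prime] (F : Type) [Field F]
    (hfin : (powers F p).index ≠ 0) : Finite (Symbols F p) := by
  have hFin : Finite (Fˣ ⧸ powers F p) := by
    have : (powers F p).FiniteIndex := ⟨hfin⟩
    infer_instance
  have key : ∀ c : Symbols F p, ∀ x y : Fˣ, c.1 x y =
      c.1 (QuotientGroup.mk x : Fˣ ⧸ powers F p).out (QuotientGroup.mk y : Fˣ ⧸ powers F p).out := by
    intro c x y
    have hc : Pool.Agent.N908.FR.IsSymbol p F c.1 := ⟨c.2.1, c.2.2.1, c.2.2.2⟩
    have h1 : ∀ x : Fˣ, ∃ u ∈ powers F p,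
        x = (QuotientGroup.mk x : Fˣ ⧸ powers F p).out * u := fun x => by
      refine ⟨(QuotientGroup.mk x : Fˣ ⧸ powers F p).out⁻¹ * x, ?_, by
        rw [mul_inv_cancel_left]⟩
      rw [← QuotientGroup.eq, QuotientGroup.out_eq']
    obtain ⟨u, hu, hux⟩ := h1 x
    obtain ⟨v, hv, hvy⟩ := h1 y
    conv_lhs => rw [hux, hvy]
    rw [hc.mul_left, hc.mul_right, hc.of_mem_left hu, hc.of_mem_right hv, add_zero, add_zero]
  refine Finite.of_injective (fun (c : Symbols F p) (a b : Fˣ ⧸ powers F p) => c.1 a.out b.out) ?_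
  intro c c' h
  apply Subtype.ext
  funext x y
  rw [key c, key c']
  exact congrFun (congrFun h _) _

/-- a symbol vanishes on `D × D` if `D/F*^p` has order at most `p` -/
theorem vanish_of_small (p : ℕ) [Fact p.Prime] (hp2 : p ≠ 2) (F : Type) [Field F]
    {D : Subgroup Fˣ} (hD : powers F p ≤ D) (h0 : (powers F p).relIndex D ≠ 0)
    (h : (powers F p).relIndex D ≤ p) (c : Symbols F p) : ∀ s ∈ D, ∀ t ∈ D, c.1 s t = 0 := by
  have hp : p.Prime := Fact.out
  have hc : Pool.Agent.N908.FR.IsSymbol p F c.1 := ⟨c.2.1, c.2.2.1, c.2.2.2⟩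
  by_cases hex : ∃ t ∈ D, t ∉ powers F p
  · obtain ⟨t, ht, htp⟩ := hex
    have hle : Subgroup.zpowers t ⊔ powers F p ≤ D :=
      sup_le ((Subgroup.zpowers_le).2 ht) hD
    have h1 : (powers F p).relIndex (Subgroup.zpowers t ⊔ powers F p) *
        (Subgroup.zpowers t ⊔ powers F p).relIndex D = (powers F p).relIndex D :=
      Subgroup.relIndex_mul_relIndex _ _ _ le_sup_right hle
    have h2 : p ≤ (powers F p).relIndex (Subgroup.zpowers t ⊔ powers F p) := by
      have h3 : (powers F p).relIndex (Subgroup.zpowers t ⊔ powers F p) ≠ 0 := by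
        intro h4
        rw [h4, zero_mul] at h1
        exact h0 h1.symm
      have h4 : ∀ x ∈ Subgroup.zpowers t ⊔ powers F p, x ^ p ∈ powers F p := fun x _ => ⟨x, rfl⟩
      -- the order of the class of `t`
      let Q := ↥(Subgroup.zpowers t ⊔ powers F p) ⧸
        (powers F p).subgroupOf (Subgroup.zpowers t ⊔ powers F p)
      have hfQ : Finite Q := Nat.finite_of_card_ne_zero h3
      let g : Q := QuotientGroup.mk
        ⟨t, Subgroup.mem_sup_left (Subgroup.mem_zpowers t)⟩
      have hg : orderOf g = p := by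
        refine orderOf_eq_prime ?_ ?_
        · rw [← QuotientGroup.mk_pow, QuotientGroup.eq_one_iff]
          exact ⟨t, rfl⟩
        · intro h5
          rw [QuotientGroup.eq_one_iff] at h5
          exact htp h5
      have h6 := orderOf_dvd_natCard g
      rw [hg] at h6
      exact Nat.le_of_dvd (Nat.pos_of_ne_zero h3) h6
    have h3 : (Subgroup.zpowers t ⊔ powers F p).relIndex D = 1 := by
      have h5 : (Subgroup.zpowers t ⊔ powers F p).relIndex D ≠ 0 := by
        intro h5
        rw [h5, mul_zero] at h1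
        exact h0 h1.symm
      by_contra h6
      have h7 : 2 ≤ (Subgroup.zpowers t ⊔ powers F p).relIndex D := by omega
      have h8 := Nat.mul_le_mul h2 h7
      rw [h1] at h8
      have := hp.two_le
      omega
    have h4 : D ≤ Subgroup.zpowers t ⊔ powers F p := Subgroup.relIndex_eq_one.1 h3
    exact fun s hs u hu => Pool.Agent.P8H47.EC.symbol_zpowers hp2 hc t s (h4 hs) u (h4 hu)
  · push Not at hex
    exact fun s hs u _ => hc.of_mem_left (hex s hs) u

/-- Let `p` be an odd prime, `F` a field with a primitive `p`-th root of unity and `F*/F*^p` finite,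
`K` the maximal `p`-extension of `F`, and `T i`, `i ∈ ι`, finitely many (at least one) different
minimal subgroups of `F*`, with intersection `D`. There are closed subgroups `H i` of `Gal(K/F)`,
decomposition groups of valuations with nontrivial inertia, with fixed fields `E i`, such that
`T i = F* ∩ (E i)*^p`, `(E i)* = F* (E i)*^p`, and

* the map from `F*` to the product of the groups `(E i)*/(E i)*^p` is surjective;
* for `t ∈ D`, `x ∈ F*` there is `z ∈ x D` with `1 + z ∈ t F*^p`;
* the sum of restrictions is an injective map from the families of symbols on the fields `E i` to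
  the symbols on `F`, its image is the set of the symbols which vanish on `D × D`, and these vanish on
  `D × F*`;
* it is bijective if `[D : F*^p] ≤ p`;
* there are finitely many symbols on `F`, and if `[D : F*^p] = p ^ d` and `[F* : T i] = p ^ (m i)` there
  are at most `p ^ (d (d - 1) / 2 + Σ m i (m i - 1) / 2)`. -/
theorem result (p : ℕ) [Fact p.Prime] (hp2 : p ≠ 2) (F : Type) [Field F]
    (hζ : ∃ ζ : F, IsPrimitiveRoot ζ p) (hfin : (powers F p).index ≠ 0)
    (K : IntermediateField F (AlgebraicClosure F)) (hK : IsMaximalPExtension p K)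
    {ι : Type} [Fintype ι] [Nonempty ι] (T : ι → Subgroup Fˣ) (hT : ∀ i, IsMinimal p (T i))
    (hinj : Function.Injective T) :
    ∃ H : ι → Subgroup (GaloisGroup K), (∀ i, BelongsTo p (H i) (T i)) ∧ JointlyOnto p H ∧
      Splitting p (⨅ i, T i) ∧ SymbolsSplit p H (⨅ i, T i) ∧ CardBound p T := by
  classical
  have hp : p.Prime := Fact.out
  have hp0 := hp.ne_zero
  have hpF := Pool.Agent.P8H47.EC.p_ne hζ
  have hm1 : (-1 : Fˣ) ∈ powers F p := Pool.Agent.N908.FR.neg_one_mem hp2
  choose O hO using fun i => Pool.Agent.P8H47.EC3.exists_good hp2 hζ (minCp_iff.2 (hT i)) K hK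
  obtain ⟨h1, h2, h3⟩ := Pool.Agent.P8H47.EC2.sim hpF hm1 hfin T (fun i => minCp_iff.2 (hT i)) hinj
  have hsymF : ∀ c : Symbols F p, Pool.Agent.N908.FR.IsSymbol p F c.1 :=
    fun c => ⟨c.2.1, c.2.2.1, c.2.2.2⟩
  have hsymE : ∀ (i : ι) (c : Symbols (Pool.Agent.P8H47.EC3.DF (O i)) p),
      Pool.Agent.N908.FR.IsSymbol p (Pool.Agent.P8H47.EC3.DF (O i)) c.1 :=
    fun i c => ⟨c.2.1, c.2.2.1, c.2.2.2⟩
  have hrange : ∀ c : Symbols F p, (∀ s ∈ ⨅ i, T i, ∀ t ∈ ⨅ i, T i, c.1 s t = 0) →
      ∃ f : (i : ι) → Symbols (Pool.Agent.P8H47.EC3.DF (O i)) p, sumRestrict f = c := by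
    intro c hc
    obtain ⟨g, ⟨hg1, hg2⟩, -⟩ := h3 c.1 (hsymF c) hc
    choose f hf using fun i => (Pool.Agent.P8H47.EC3.symb_ext (hO i) hm1 (hg1 i).1 (hg1 i).2).exists
    refine ⟨fun i => ⟨f i, (hf i).1.1, (hf i).1.2, (hf i).1.3⟩, ?_⟩
    apply Subtype.ext
    funext x y
    rw [hg2]
    exact Finset.sum_congr rfl fun i _ => ((hf i).2 x y).symm
  have hvan : ∀ (f : (i : ι) → Symbols (Pool.Agent.P8H47.EC3.DF (O i)) p), ∀ t ∈ ⨅ i, T i,
      ∀ x : Fˣ, (sumRestrict f : Symbols F p).1 t x = 0 := by
    intro f t ht x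
    exact Finset.sum_eq_zero fun i _ =>
      Pool.Agent.P8H47.EC3.symb_res (hO i) (hsymE i (f i)) (Subgroup.mem_iInf.1 ht i) x
  have hinjS : Function.Injective (sumRestrict :
      ((i : ι) → Symbols (Pool.Agent.P8H47.EC3.DF (O i)) p) → Symbols F p) := by
    intro f f' hff
    have h5 := h3 (sumRestrict f : Symbols F p).1 (hsymF _) (fun s hs t _ => hvan f s hs t)
    obtain ⟨g, -, hg⟩ := h5
    have h6 : ∀ f₀ : (i : ι) → Symbols (Pool.Agent.P8H47.EC3.DF (O i)) p,
        (sumRestrict f₀ : Symbols F p) = sumRestrict f →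
        (fun i x y => (f₀ i).1 (emb F _ x) (emb F _ y)) = g := by
      intro f₀ he
      refine hg _ ⟨fun i => ⟨⟨?_, ?_, ?_⟩, ?_⟩, ?_⟩
      · intro a b x
        dsimp only
        rw [map_mul, (f₀ i).2.1]
      · intro x a b
        dsimp only
        rw [map_mul, (f₀ i).2.2.1]
      · intro x y hxy
        refine (f₀ i).2.2.2 _ _ ?_
        change algebraMap F _ x + algebraMap F _ y = 1
        rw [← map_add, hxy, map_one]
      · intro t ht x
        exact Pool.Agent.P8H47.EC3.symb_res (hO i) (hsymE i (f₀ i)) ht x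
      · intro x y
        rw [← he]
        rfl
    have h7 := (h6 f rfl).trans (h6 f' hff.symm).symm
    funext i
    have h8 : (∀ t ∈ T i, ∀ x, (fun x y => (f i).1 (emb F _ x) (emb F _ y)) t x = 0) :=
      fun t ht x => Pool.Agent.P8H47.EC3.symb_res (hO i) (hsymE i (f i)) ht x
    have h9 : Pool.Agent.N908.FR.IsSymbol p F
        (fun x y => (f i).1 (emb F _ x) (emb F _ y)) := by
      refine ⟨?_, ?_, ?_⟩
      · intro a b x
        rw [map_mul, (f i).2.1]
      · intro x a b
        rw [map_mul, (f i).2.2.1]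
      · intro x y hxy
        refine (f i).2.2.2 _ _ ?_
        change algebraMap F _ x + algebraMap F _ y = 1
        rw [← map_add, hxy, map_one]
    have h10 := (Pool.Agent.P8H47.EC3.symb_ext (hO i) hm1 h9 h8).unique
      (y₁ := (f i).1) (y₂ := (f' i).1) ⟨hsymE i (f i), fun x y => rfl⟩
      ⟨hsymE i (f' i), fun x y => congrFun (congrFun (congrFun h7 i) x) y⟩
    exact Subtype.ext h10
  have hD0 : (powers F p).relIndex (⨅ i, T i) ≠ 0 := by
    intro h0
    apply hfin
    have h5 := Subgroup.relIndex_mul_index (H := powers F p) (K := ⨅ i, T i)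
      (le_iInf fun i => (hT i).le)
    rw [h0, zero_mul] at h5
    exact h5.symm
  refine ⟨fun i => Pool.Agent.P8H47.EC3.Z (O i), fun i => ⟨(hO i).closed, (hO i).dec,
    fun x => Pool.Agent.P8H47.EC3.mem_T (hO i), fun y => ?_⟩, fun y => ?_, h2, ⟨hinjS,
    fun c => ⟨hrange c, ?_⟩, fun f t ht x => ⟨hvan f t ht x, ?_⟩, fun hD => ⟨hinjS, fun c => ?_⟩⟩,
    symbols_finite p F hfin, fun d hd m hm => card_le p hp2 F hpF hfin T hT hinj d hd m hm⟩
  · exact Pool.Agent.P8H47.EC3.rep (hO i) hp0 y
  · choose g w hg using fun i => Pool.Agent.P8H47.EC3.rep (hO i) hp0 (y i)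
    obtain ⟨x, hx⟩ := h1 g
    refine ⟨x, fun i => ?_⟩
    obtain ⟨z, hz⟩ := (Pool.Agent.P8H47.EC3.mem_T (hO i)).1 (hx i)
    refine ⟨z * (w i)⁻¹, ?_⟩
    have e1 : x = g i * ((g i)⁻¹ * x) := by rw [mul_inv_cancel_left]
    have e2 : emb F _ x = emb F (Pool.Agent.P8H47.EC3.DF (O i)) (g i) * z ^ p := by
      conv_lhs => rw [e1]
      rw [map_mul]
      congr 1
    have e3 : y i = emb F (Pool.Agent.P8H47.EC3.DF (O i)) (g i) * (w i) ^ p := hg i
    have key : ∀ (A : Type) [CommGroup A] (b a z w : A), b = a * w ^ p →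
        a * z ^ p = b * (z * w⁻¹) ^ p := by
      intro A _ b a z w h
      rw [h, mul_assoc, ← mul_pow, mul_left_comm, mul_inv_cancel, mul_one]
    exact e2.trans (key _ _ _ _ _ e3)
  · rintro ⟨f, rfl⟩ s hs t _
    exact hvan f s hs t
  · exact (Pool.Agent.P8H47.EC.anti hp2 (hsymF _) x t).trans
      (neg_eq_zero.2 (hvan f t ht x))
  · exact hrange c (vanish_of_small p hp2 F (le_iInf fun i => (hT i).le) hD0 hD c)

end Pool.Agent.Results.MP_600e55_nt.SimultaneousSplitting
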