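import Pool.Agent.P8H47.FP.Fin
import Pool.Agent.Results.MP_600e55_nt.SimultaneousSplitting

/-!
# `p = 2`: the maximal pro-2 Galois group as a free product

`F` is a field of characteristic `≠ 2` with `F*/F*²` finite, `K = F(2)` the maximal 2-extension,
`G = Gal(K/F)`.

A valuation ring `O` of `F` with maximal ideal `m` is compatible with a subgroup `T` of `F*` if
`2 ∈ O*`, `1 + m ⊆ T` and `O* T ≠ F*`. `T ⊇ F*²` is minimal if it has a compatible valuation ring and no
smaller such group has one. `D` is the intersection of all minimal subgroups and of all orderings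
of `F` (of the groups of positive elements); `D = F*` if there are none.

Theorem. The following are equivalent:
(a) all quaternion algebras `(s, t)`, `s, t ∈ D`, split;
(b) `G` is the free pro-2 product of finitely many closed subgroups which are isomorphic to `ℤ₂`, or of
order 2, or decomposition groups with nontrivial inertia of valuations with residue characteristic
`≠ 2`.
If this is the case there is a canonical decomposition: one decomposition group `H_T` for each
minimal subgroup `T`, with fixed field `E`, `T = F* ∩ E*²`, `E* = F* E*²`; one group of order two for each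
ordering `P` which contains no minimal subgroup, with fixed field `R`, `P = F* ∩ R*²`; and `d` copies of
`ℤ₂`, `[D : F*²] = 2 ^ d`.
So (a) implies the conclusion of Q1 for `F` and `p = 2`. If `F` has positive characteristic the
conclusion of Q1 is equivalent to (a).

In all known results of this kind in the library `G` is one decomposition group (or `F` is given by
other data); here the number of the factors is arbitrary. Neither Merkurjev's theorem nor
cohomology is used.

Outline. (1) Let `E_i` be the fixed fields of a family of closed subgroups `H_i`. Suppose that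
`F* → ∏ E_i*/E_i*²` is surjective, and that a quaternion algebra over `F` splits if it splits over all
`E_i`. Then the same holds for a quadratic extension `F(√a)` and the fields `E_i(√a)` (twice `E_i` if
`√a ∈ E_i`): for `x, y ∈ F(√a)`, a form `⟨y⟩⟨1, -x⟩` has a transfer of dimension 4, for which the local-global
principle holds; this reduces the statement to `y ∈ F`, where the norm principle for quadratic extensions
applies. By induction an embedding problem for `G` with a kernel of order two is solvable if it is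
solvable for all `H_i`: the last step of a descent along `F(√a)/F` is the statement that an element of `F` is a
norm if it is a norm from all `E_i(√a)`. So `G` is the free pro-2 product of the `H_i` if
`F*/F*² → ∏ E_i*/E_i*²` is also injective, which is achieved by adding procyclic groups; these are
isomorphic to `ℤ₂` since `-1` is a norm from `F(√t)` for `t ∈ D`.
(2) The local-global principle for the minimal subgroups and the orderings which contain none of them
is proved with an approximation theorem for such families of valuation rings and orderings; they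
may be dependent, but for different minimal subgroups the elements of `m_i \ J_i` are units of `O_i O_j`
(see `SimultaneousSplitting`), and similarly for orderings. It gives that every element of `F*` is the
product of an element of `D` and a norm from `F(√t)`, `t ∈ D`.
(3) The converse is proved with the dihedral group of order 8: if all local extensions exist then
there is a homomorphism of `G` onto it which shows that `(s, t)` splits.

Proved in Lean by helper47 with helper20, 40, 44, 45, 54, 55, 56, 57, 63, 65, 88, 93, 53, 48.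
-/

set_option autoImplicit false

namespace Pool.Agent.Results.MP_600e55_nt.FreeProductCriterion

open Pool.Agent.Results.MP_600e55_nt.SymbolPartitions
open Pool.Agent.Results.MP_600e55_nt.SimultaneousSplitting

/-- `P` is the group of the positive elements of an ordering of the field `F` -/
structure IsOrdering {F : Type} [Field F] (P : Subgroup Fˣ) : Prop where
  add : ∀ x ∈ P, ∀ y ∈ P, ∃ z ∈ P, (z : F) = x + y
  neg : -1 ∉ P
  total : ∀ x : Fˣ, x ∈ P ∨ -x ∈ P

/-- `D`, the intersection of all minimal subgroups and of all orderings -/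
def commonPart (F : Type) [Field F] : Subgroup Fˣ := sInf {S | IsMinimal 2 S ∨ IsOrdering S}

/-- all quaternion algebras `(s, t)`, `s, t ∈ D`, split: `s` is of the form `u² - t v²` -/
def Splits (F : Type) [Field F] : Prop :=
  ∀ s ∈ commonPart F, ∀ t ∈ commonPart F, ∃ u v : F, (s : F) = u ^ 2 - t * v ^ 2

section

variable {F : Type} [Field F] {K : IntermediateField F (AlgebraicClosure F)}

/-- `H` is the decomposition group of a valuation `w` of `K` with `w 2 = 1` (the residue characteristic
is not two), and the inertia group is not trivial -/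
def IsTameDecompositionGroup (H : Subgroup (↥K ≃ₐ[F] ↥K)) : Prop :=
  ∃ (Γ : Type) (_ : LinearOrderedCommGroupWithZero Γ) (w : Valuation K Γ), w 2 = 1 ∧
    (∀ σ : ↥K ≃ₐ[F] ↥K, σ ∈ H ↔ ∀ x : ↥K, (w (σ x) ≤ 1 ↔ w x ≤ 1)) ∧
    ∃ σ ∈ H, σ ≠ 1 ∧ ∀ x : ↥K, w x ≤ 1 → w (σ x - x) < 1

end

/-- `Gal(K/F)` is the free pro-2 product of finitely many closed subgroups which are isomorphic to
`ℤ₂`, or tame decomposition groups with nontrivial inertia, or of order two -/
def TameElementary {F : Type} [Field F] (K : IntermediateField F (AlgebraicClosure F)) : Prop :=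
  ∃ (n : ℕ) (H : Fin n → Subgroup (GaloisGroup K)),
    (∀ i, IsClosed (H i : Set (GaloisGroup K))) ∧ IsFreeProduct 2 H ∧
    ∀ i, Nonempty (H i ≃ₜ* Multiplicative (PadicInt 2)) ∨ IsTameDecompositionGroup (K := K) (H i) ∨
      Nat.card (H i) = 2

/-- `G` is the free pro-2 product of its subgroups `H i` (for a pro-2 group `G` and closed `H i`) -/
def IsFreeProductOf {G : Type} [Group G] [TopologicalSpace G] {ι : Type} (H : ι → Subgroup G) :
    Prop :=
  ∀ (P : Type) [Group P] [Finite P], (∃ k : ℕ, Nat.card P = 2 ^ k) →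
    ∀ φ : (i : ι) → (H i →* P), (∀ i, IsOpen ((φ i).ker : Set (H i))) →
      ∃! ψ : G →* P, IsOpen (ψ.ker : Set G) ∧ ∀ i, ∀ x : H i, ψ (x : G) = φ i x

/-- the ordering `P` contains no minimal subgroup -/
def IsIsolated {F : Type} [Field F] (P : Subgroup Fˣ) : Prop :=
  IsOrdering P ∧ ∀ T : Subgroup Fˣ, IsMinimal 2 T → ¬ T ≤ P

/-- the canonical decomposition: groups `H T` for the minimal subgroups `T`, groups `B P` of order two
for the isolated orderings `P`, and groups `C j` isomorphic to `ℤ₂`, `[D : F*²] = 2 ^ d` of them -/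
def Canonical {F : Type} [Field F] (K : IntermediateField F (AlgebraicClosure F)) : Prop :=
  ∃ (d : ℕ) (H : {T : Subgroup Fˣ // IsMinimal 2 T} → Subgroup (GaloisGroup K))
    (B : {P : Subgroup Fˣ // IsIsolated P} → Subgroup (GaloisGroup K))
    (C : Fin d → Subgroup (GaloisGroup K)),
    (powers F 2).relIndex (commonPart F) = 2 ^ d ∧
    (∀ T, IsTameDecompositionGroup (K := K) (H T) ∧ BelongsTo 2 (H T) T.1) ∧
    (∀ P, Nat.card (B P) = 2 ∧
      ∀ x : Fˣ, x ∈ P.1 ↔ ∃ y : (FixedField (B P))ˣ, emb F (FixedField (B P)) x = y ^ 2) ∧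
    (∀ j, IsClosed (C j : Set (GaloisGroup K)) ∧
      Nonempty (C j ≃ₜ* Multiplicative (PadicInt 2))) ∧
    IsFreeProductOf (Sum.elim (Sum.elim H B) C)

open Pool.Agent.P8H47.FP in
theorem isOrd_iff {F : Type} [Field F] {P : Subgroup Fˣ} : IsOrd P ↔ IsOrdering P :=
  ⟨fun h => ⟨h.1, h.2, h.3⟩, fun h => ⟨h.1, h.2, h.3⟩⟩

open Pool.Agent.P8H47.FP in
theorem DD_eq (F : Type) [Field F] : DD F = commonPart F := by
  unfold DD commonPart
  congr 1
  ext S
  exact or_congr minCp_iff isOrd_iff

open Pool.Agent.P8H47.FP in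
theorem splits_iff (F : Type) [Field F] :
    Pool.Agent.P8H47.FP.Splits F ↔ Splits F := by
  unfold Pool.Agent.P8H47.FP.Splits Splits
  rw [DD_eq]

/-- free products do not depend on the index set -/
theorem free_equiv {G : Type} [Group G] [TopologicalSpace G] {ι ι' : Type} (e : ι' ≃ ι)
    {H : ι → Subgroup G} (h : IsFreeProductOf H) : IsFreeProductOf (fun k => H (e k)) := by
  intro P _ _ hP φ hφ
  have hcast : ∀ (j k : ι'), j = k → ∀ (x : H (e j)) (y : H (e k)), (x : G) = y →
      φ j x = φ k y := by
    rintro j _ rfl x y hxy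
    rw [Subtype.ext hxy]
  let φ' : (i : ι) → (H i →* P) := fun i =>
    (φ (e.symm i)).comp
      (MulEquiv.subgroupCongr (congrArg H (e.apply_symm_apply i).symm)).toMonoidHom
  have hφ' : ∀ k, φ' (e k) = φ k := by
    intro k
    ext x
    exact hcast _ _ (e.symm_apply_apply k) _ _ rfl
  obtain ⟨ψ, ⟨h1, h2⟩, h3⟩ := h P hP φ' (fun i => by
      obtain ⟨k, rfl⟩ := e.surjective i
      rw [hφ']
      exact hφ k)
  refine ⟨ψ, ⟨h1, fun k x => ?_⟩, fun ψ' hψ' => h3 ψ' ⟨hψ'.1, fun i x => ?_⟩⟩
  · rw [h2, hφ']
  · obtain ⟨k, rfl⟩ := e.surjective i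
    rw [hφ']
    exact hψ'.2 k x

/-- fixed elements, in terms of the fixed field -/
theorem sq_iff {F : Type} [Field F] {K : IntermediateField F (AlgebraicClosure F)}
    (H : Subgroup (GaloisGroup K)) (x : Fˣ) :
    (∃ y ∈ Pool.Agent.P8H47.FP.Fx (K := K) H, y ^ 2 = algebraMap F K x) ↔
      ∃ y : (FixedField H)ˣ, emb F (FixedField H) x = y ^ 2 := by
  constructor
  · rintro ⟨y, hy, e⟩
    have hx0 : algebraMap F K (x : F) ≠ 0 := fun h0 =>
      x.ne_zero ((algebraMap F K).injective (by rw [map_zero]; exact h0))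
    have hy0 : y ≠ 0 := by
      rintro rfl
      rw [zero_pow two_ne_zero] at e
      exact hx0 e.symm
    refine ⟨Units.mk0 (⟨y, hy⟩ : FixedField H) (fun h => hy0 (congrArg Subtype.val h)), ?_⟩
    apply Units.ext
    apply Subtype.ext
    exact e.symm
  · rintro ⟨y, e⟩
    refine ⟨((y : FixedField H) : Subtype _).1, ((y : FixedField H) : Subtype _).2, ?_⟩
    exact (congrArg (fun z : (FixedField H)ˣ => ((z : FixedField H) : Subtype _).1) e).symm

theorem card_of_invol {G : Type} [Group G] {τ : G} (h : τ * τ = 1) (h1 : τ ≠ 1) :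
    Nat.card (Subgroup.zpowers τ) = 2 := by
  rw [Nat.card_zpowers]
  exact orderOf_eq_prime (by rw [sq]; exact h) h1

open Pool.Agent.P8H47.FP in
/-- the canonical decomposition -/
theorem canonical_of {F : Type} [Field F] (h2 : (2 : F) ≠ 0) (hfin : (powers F 2).index ≠ 0)
    (K : IntermediateField F (AlgebraicClosure F)) (hK : IsMaximalPExtension 2 K)
    (hS : Splits F) : Canonical K := by
  obtain ⟨d, O, τ, C, hd, hO, hτ, hC, hfree⟩ := mainF h2 hfin hK ((splits_iff F).2 hS)
  refine ⟨d, fun T => Pool.Agent.P8H47.EC3.Z (O ⟨T.1, minCp_iff.2 T.2⟩),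
    fun P => Subgroup.zpowers (τ ⟨P.1, isOrd_iff.2 P.2.1, fun T hT => P.2.2 T (minCp_iff.1 hT)⟩),
    C, ?_, ?_, ?_, hC, ?_⟩
  · rw [← DD_eq]
    exact hd
  · intro T
    obtain ⟨hgood, htame⟩ := hO ⟨T.1, minCp_iff.2 T.2⟩
    refine ⟨htame, hgood.closed, hgood.dec, fun x => Pool.Agent.P8H47.EC3.mem_T hgood, fun y => ?_⟩
    exact Pool.Agent.P8H47.EC3.rep hgood two_ne_zero y
  · intro P
    have h3 := hτ ⟨P.1, isOrd_iff.2 P.2.1, fun T hT => P.2.2 T (minCp_iff.1 hT)⟩
    exact ⟨card_of_invol h3.inv h3.ne, fun x => (h3.pos x).trans (sq_iff _ x)⟩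
  · let e1 : {T : Subgroup Fˣ // IsMinimal 2 T} ≃ MinT F :=
      Equiv.subtypeEquivRight fun T => minCp_iff.symm
    let e2 : {P : Subgroup Fˣ // IsIsolated P} ≃ IsoP F :=
      Equiv.subtypeEquivRight fun P => and_congr isOrd_iff.symm
        (forall_congr' fun T => imp_congr_left minCp_iff.symm)
    have h3 := free_equiv (Equiv.sumCongr (Equiv.sumCongr e1 e2) (Equiv.refl (Fin d))) hfree
    refine (congrArg IsFreeProductOf (?_ : _ = _)).mp h3
    funext k
    rcases k with (T | P) | j <;> rfl

open Pool.Agent.P8H47.FP in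
/-- from the canonical decomposition to a numbered one -/
theorem tame_of_splits {F : Type} [Field F] (h2 : (2 : F) ≠ 0) (hfin : (powers F 2).index ≠ 0)
    (K : IntermediateField F (AlgebraicClosure F)) (hK : IsMaximalPExtension 2 K)
    (hS : Splits F) : TameElementary K := by
  obtain ⟨d, O, τ, C, hd, hO, hτ, hC, hfree⟩ := mainF h2 hfin hK ((splits_iff F).2 hS)
  have hfinA := finite_above hfin
  have hf1 : Finite (MinT F) := Finite.of_injective
    (fun T : MinT F => (⟨T.1, T.2.le⟩ : {T : Subgroup Fˣ // powers F 2 ≤ T}))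
    fun T T' h => Subtype.ext (congrArg (fun x => x.1) h)
  have hf2 : Finite (IsoP F) := Finite.of_injective
    (fun P : IsoP F => (⟨P.1, P.2.1.sq_le⟩ : {T : Subgroup Fˣ // powers F 2 ≤ T}))
    fun T T' h => Subtype.ext (congrArg (fun x => x.1) h)
  have hcl : ∀ q : (MinT F ⊕ IsoP F) ⊕ Fin d, IsClosed ((Sum.elim (Sum.elim
      (fun T => Pool.Agent.P8H47.EC3.Z (F := F) (O T)) (fun P => Subgroup.zpowers (τ P))) C q :
      Subgroup (↥K ≃ₐ[F] ↥K)) : Set (↥K ≃ₐ[F] ↥K)) := by
    rintro ((T | P) | j)
    · exact (hO T).1.closed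
    · have h7 : IsOfFinOrder (τ P) := isOfFinOrder_iff_pow_eq_one.2 ⟨2, two_pos, by
          rw [sq]; exact (hτ P).inv⟩
      have h8 : (Subgroup.zpowers (τ P) : Set (↥K ≃ₐ[F] ↥K)).Finite := h7.finite_zpowers
      exact h8.isClosed
    · exact (hC j).1
  have hty : ∀ q : (MinT F ⊕ IsoP F) ⊕ Fin d,
      Nonempty (↥(Sum.elim (Sum.elim (fun T => Pool.Agent.P8H47.EC3.Z (F := F) (O T))
        (fun P => Subgroup.zpowers (τ P))) C q) ≃ₜ* Multiplicative (PadicInt 2)) ∨
      Tame (Sum.elim (Sum.elim (fun T => Pool.Agent.P8H47.EC3.Z (F := F) (O T))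
        (fun P => Subgroup.zpowers (τ P))) C q) ∨
      Nat.card ↥(Sum.elim (Sum.elim (fun T => Pool.Agent.P8H47.EC3.Z (F := F) (O T))
        (fun P => Subgroup.zpowers (τ P))) C q) = 2 := by
    rintro ((T | P) | j)
    · exact Or.inr (Or.inl (hO T).2)
    · exact Or.inr (Or.inr (card_of_invol (hτ P).inv (hτ P).ne))
    · exact Or.inl (hC j).2
  obtain ⟨n, ⟨e⟩⟩ := Finite.exists_equiv_fin ((MinT F ⊕ IsoP F) ⊕ Fin d)
  exact ⟨n, fun k => Sum.elim (Sum.elim (fun T => Pool.Agent.P8H47.EC3.Z (F := F) (O T))
    (fun P => Subgroup.zpowers (τ P))) C (e.symm k), fun k => hcl (e.symm k),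
    free_equiv e.symm hfree, fun k => hty (e.symm k)⟩

theorem q1_of_tame {F : Type} [Field F] {K : IntermediateField F (AlgebraicClosure F)}
    (h : TameElementary K) : ConclusionOfQ1 2 K := by
  obtain ⟨n, H, h1, h2, h3⟩ := h
  refine ⟨n, H, h1, h2, fun i => ?_⟩
  rcases h3 i with h | ⟨Γ, i1, w, -, h4, h5⟩ | h
  · exact Or.inl h
  · exact Or.inr (Or.inl ⟨Γ, i1, w, h4, h5⟩)
  · exact Or.inr (Or.inr ⟨rfl, h⟩)

theorem tame_of_q1 {F : Type} [Field F] (h2 : (2 : F) ≠ 0) {ℓ : ℕ} (hℓ : ℓ ≠ 0) [CharP F ℓ]
    {K : IntermediateField F (AlgebraicClosure F)} (h : ConclusionOfQ1 2 K) : TameElementary K := by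
  obtain ⟨n, H, h1, h3, h4⟩ := h
  refine ⟨n, H, h1, h3, fun i => ?_⟩
  rcases h4 i with h | ⟨Γ, i1, w, h5, h6⟩ | h
  · exact Or.inl h
  · exact Or.inr (Or.inl ⟨Γ, i1, w, Pool.Agent.P8H47.FP.tame_of_char h2 hℓ w, h5, h6⟩)
  · exact Or.inr (Or.inr h.2)

theorem splits_of_tame {F : Type} [Field F] (h2 : (2 : F) ≠ 0) (hfin : (powers F 2).index ≠ 0)
    {K : IntermediateField F (AlgebraicClosure F)} (hK : IsMaximalPExtension 2 K)
    (h : TameElementary K) : Splits F := by
  obtain ⟨n, H, -, h3, h4⟩ := h
  exact (splits_iff F).1 (Pool.Agent.P8H47.FP.conv_main h2 hfin hK n H h3 h4)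

/-- Let `F` be a field of characteristic `≠ 2` with `F*/F*²` finite, `K` its maximal 2-extension, `D`
the intersection of all minimal subgroups and all orderings.

* `Gal(K/F)` is the free pro-2 product of finitely many closed subgroups isomorphic to `ℤ₂`, tame
  decomposition groups with nontrivial inertia and groups of order two if and only if all quaternion
  algebras `(s, t)`, `s, t ∈ D`, split.
* In this case the conclusion of Q1 holds and there is the canonical decomposition: one
  decomposition group `H T` for each minimal subgroup `T`, one group `B P` of order two for each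
  ordering `P` containing no minimal subgroup, and `d` copies of `ℤ₂`, `[D : F*²] = 2 ^ d`.
* If `F` has positive characteristic, the conclusion of Q1 holds if and only if all quaternion
  algebras `(s, t)`, `s, t ∈ D`, split. -/
theorem result (F : Type) [Field F] (h2 : (2 : F) ≠ 0) (hfin : (powers F 2).index ≠ 0)
    (K : IntermediateField F (AlgebraicClosure F)) (hK : IsMaximalPExtension 2 K) :
    (TameElementary K ↔ Splits F) ∧
    (Splits F → ConclusionOfQ1 2 K ∧ Canonical K) ∧
    (∀ ℓ : ℕ, ℓ ≠ 0 → CharP F ℓ → (ConclusionOfQ1 2 K ↔ Splits F)) :=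
  ⟨⟨splits_of_tame h2 hfin hK, tame_of_splits h2 hfin K hK⟩,
    fun h => ⟨q1_of_tame (tame_of_splits h2 hfin K hK h), canonical_of h2 hfin K hK h⟩,
    fun _ hℓ _ => ⟨fun h => splits_of_tame h2 hfin hK (tame_of_q1 h2 hℓ h),
      fun h => q1_of_tame (tame_of_splits h2 hfin K hK h)⟩⟩

end Pool.Agent.Results.MP_600e55_nt.FreeProductCriterion
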