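import Pool.Agent.P8H47.FP.Fin2
import Pool.Agent.Results.MP_600e55_nt.FreeProductCriterion

/-!
# `p = 2`: the elementary type conjecture and symbols of local type

`F` is a field of characteristic `≠ 2` with `F*/F*²` finite, `K = F(2)` the maximal 2-extension,
`G = Gal(K/F)`, `D` the intersection of all minimal compatible subgroups and of all orderings of `F`.
By `FreeProductCriterion`, `G` is a free pro-2 product of groups `ℤ₂`, `ℤ/2` and tame decomposition
groups if and only if all quaternion algebras `(s, t)`, `s, t ∈ D`, split.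

Here this condition is expressed in terms of Steinberg symbols `B : F* × F* → ℤ/2`. A symbol of local
type of rank `r` is one whose radical `M` satisfies `M D = F*` and has index `2 ^ r`. For a finite
extension `F` of `ℚ₂` we have `D = F*`, and the Hilbert symbol is a symbol of local type of rank
`[F : ℚ₂] + 2`.

Theorem.
1. All algebras `(s, t)`, `s, t ∈ D`, split if and only if there is no symbol of local type of rank at
least 3. If `-1` is a sum of two squares in `F`, rank at least 4.
2. If `[D : F*²] ≤ 4`, or if `[D : F*²] ≤ 8` and `-1` is a sum of two squares, the algebras split. So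
Q1 is true for these fields and `p = 2`, and `G` has the canonical decomposition. (The bounds are sharp
for the splitting: `ℚ₂` and `ℚ₂(i)` have `D = F*` with 8 and 16 classes.) There are no conditions on
the number and the structure of the decomposition groups and of the orderings.
3. In positive characteristic the conclusion of Q1 holds for `F` if and only if `F` has no symbol of
local type of rank at least 4.

Outline. (1) A local-global principle for norms: let `x, y ∈ F*` and let `X + Y = 1` with `X ∈ x T`,
`Y ∈ y T` for every minimal `T` and every ordering `T`. Then there is a norm from `F(√x)` in `y D`. This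
is an approximation theorem for targets in one class modulo squares. (2) Let `(s, t)` be a division
algebra, `s, t ∈ D`, and `λ` a functional on the 2-torsion of the Brauer group (we use a group of
functions on `G × G` modulo coboundaries) which does not vanish on `(s, t)`. Then
`M = {x | λ(x, t') = 0 for t' ∈ D}` satisfies `M D = F*`, and by (1) the form `λ(d, d')` on
`D/(D ∩ M) = F*/M` gives a Steinberg symbol on `F`. (3) A symbol of rank 1 is an ordering. For a
symbol of rank 2 all elements outside `M` or `M ∪ -M` are rigid, and `M` has a compatible valuation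
ring or is the intersection of two orderings; here an argument is needed which shows that there are no
exceptions, and one which excludes residue characteristic two. So in these cases `D ⊆ M`, which is
impossible. (4) If `-1` is a sum of two squares then `B(-1, -1) = 0` and the rank is not 3.

Proved in Lean by helper47 with helper1, 7, 20, 21, 45, 52, 61 (this file) and helper20, 40, 44, 45,
54, 55, 56, 57, 63, 65, 88, 93, 53, 48 (`FreeProductCriterion`).
-/

set_option autoImplicit false

namespace Pool.Agent.Results.MP_600e55_nt.LocalSymbols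

open Pool.Agent.Results.MP_600e55_nt.SymbolPartitions
open Pool.Agent.Results.MP_600e55_nt.ManySymbols (Symbols)
open Pool.Agent.Results.MP_600e55_nt.FreeProductCriterion

/-- there is a Steinberg symbol `B : F* × F* → ℤ/2` with radical `M`, `M D = F*`, `[F* : M] ≥ n` -/
def HasLocalSymbol (F : Type) [Field F] (n : ℕ) : Prop :=
  ∃ (B : Symbols F 2) (M : Subgroup Fˣ), (∀ x : Fˣ, x ∈ M ↔ ∀ y : Fˣ, B.1 x y = 0) ∧
    M ⊔ commonPart F = ⊤ ∧ n ≤ M.index

/-- `-1` is a sum of two squares -/
def NegOneSumTwoSquares (F : Type) [Field F] : Prop := ∃ u v : F, (-1 : F) = u ^ 2 + v ^ 2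

open Pool.Agent.P8H47.FP in
/-- symbols with values in `ℤ/2` are symmetric -/
theorem isSymb {F : Type} [Field F] (B : Symbols F 2) : IsSymb B.1 := by
  obtain ⟨B, hl, hr, hs⟩ := B
  have h1 : ∀ a x : Fˣ, B (a * a) x = 0 := fun a x => by
    rw [hl]
    exact CharTwo.add_self_eq_zero _
  have hone : ∀ x, B 1 x = 0 := fun x => by
    have := h1 1 x
    rwa [mul_one] at this
  have hone' : ∀ x, B x 1 = 0 := fun x => by
    have := hr x 1 1
    rw [mul_one, CharTwo.add_self_eq_zero] at this
    exact this
  have hinv : ∀ a x, B a⁻¹ x = B a x := fun a x => by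
    have h2 := hl a a⁻¹ x
    rw [mul_inv_cancel, hone] at h2
    exact (CharTwo.add_eq_zero.1 h2.symm).symm
  have hinv' : ∀ a x, B x a⁻¹ = B x a := fun a x => by
    have h2 := hr x a a⁻¹
    rw [mul_inv_cancel, hone'] at h2
    exact (CharTwo.add_eq_zero.1 h2.symm).symm
  have hneg : ∀ x : Fˣ, B x (-x) = 0 := by
    intro x
    by_cases hx : x = 1
    · rw [hx, hone]
    have h3 : (1 : F) - x ≠ 0 := fun h => hx (Units.ext (by
      rw [Units.val_one]
      exact (sub_eq_zero.1 h).symm))
    have h4 : (1 : F) - (x : F)⁻¹ ≠ 0 := fun h => hx (Units.ext (by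
      have := x.ne_zero
      rw [Units.val_one]
      field_simp at h
      linear_combination h))
    obtain ⟨y, hy⟩ : ∃ y : Fˣ, (y : F) = 1 - x := ⟨Units.mk0 _ h3, rfl⟩
    obtain ⟨z, hz⟩ : ∃ z : Fˣ, (z : F) = 1 - (x : F)⁻¹ := ⟨Units.mk0 _ h4, rfl⟩
    have h5 : -x = y * z⁻¹ := by
      rw [eq_mul_inv_iff_mul_eq]
      apply Units.ext
      rw [Units.val_mul, Units.val_neg, hy, hz]
      have := x.ne_zero
      field_simp
      ring
    have h6 : B x y = 0 := hs x y (by rw [hy]; ring)
    have h7 : B x⁻¹ z = 0 := hs x⁻¹ z (by rw [hz, Units.val_inv_eq_inv_val]; ring)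
    rw [h5, hr, h6, zero_add, hinv', ← hinv, h7]
  refine ⟨hl, fun a b => ?_, hs⟩
  have h8 := hneg (a * b)
  have e : -(a * b) = -a * b := (neg_mul a b).symm
  have e1 : B b (-a) = B b (-1) + B b a := by rw [← hr, neg_one_mul]
  have e2 : B b b = B b (-1) := by
    have h9 : B b (-1 * -b) = B b (-1) + B b (-b) := hr b (-1) (-b)
    rw [neg_one_mul, neg_neg, hneg, add_zero] at h9
    exact h9
  rw [e, hl, hr, hneg, zero_add, hr, e1, e2, add_comm (B b (-1)), add_assoc,
    CharTwo.add_self_eq_zero, add_zero] at h8
  exact CharTwo.add_eq_zero.1 h8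

open Pool.Agent.P8H47.FP in
/-- positive characteristic: `-1` is a sum of two squares -/
theorem sum_two {F : Type} [Field F] {ℓ : ℕ} (hℓ : ℓ ≠ 0) [CharP F ℓ] :
    NegOneSumTwoSquares F := by
  have hp : ℓ.Prime := (CharP.char_is_prime_or_zero F ℓ).resolve_right hℓ
  have hf : Fact ℓ.Prime := ⟨hp⟩
  obtain ⟨a, b, e⟩ := ZMod.sq_add_sq ℓ (-1)
  refine ⟨ZMod.castHom dvd_rfl F a, ZMod.castHom dvd_rfl F b, ?_⟩
  rw [← map_pow, ← map_pow, ← map_add, e, map_neg, map_one]

open Pool.Agent.P8H47.FP in
/-- if the algebras do not split there is a symbol of local type -/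
theorem exists_local {F : Type} [Field F] (h2 : (2 : F) ≠ 0) (hfin : (powers F 2).index ≠ 0)
    {K : IntermediateField F (AlgebraicClosure F)} (hK : IsMaximalPExtension 2 K)
    (hS : ¬ FreeProductCriterion.Splits F) : HasLocalSymbol F 8 ∧ (NegOneSumTwoSquares F → HasLocalSymbol F 16) := by
  rw [← splits_iff] at hS
  obtain ⟨B, M, hB, hM, hMD, h8, h16⟩ := exists_symbF h2 hfin hK hS
  rw [DD_eq] at hMD
  have h : Symbols F 2 := ⟨B, hB.left, fun x a b => by
    rw [hB.symm, hB.left, hB.symm a, hB.symm b], hB.st⟩
  exact ⟨⟨⟨B, hB.left, fun x a b => by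
      rw [hB.symm, hB.left, hB.symm a, hB.symm b], hB.st⟩, M, hM, hMD, h8⟩,
    fun h => ⟨⟨B, hB.left, fun x a b => by
      rw [hB.symm, hB.left, hB.symm a, hB.symm b], hB.st⟩, M, hM, hMD, h16 h⟩⟩

open Pool.Agent.P8H47.FP in
/-- if the algebras split there is no symbol of local type -/
theorem not_local {F : Type} [Field F] (hS : FreeProductCriterion.Splits F) {n : ℕ} (hn : 2 ≤ n) :
    ¬ HasLocalSymbol F n := by
  rintro ⟨B, M, hM, hMD, hi⟩
  rw [← splits_iff] at hS
  rw [← DD_eq] at hMD
  have h := no_symbF hS (isSymb B) hM hMD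
  rw [h, Subgroup.index_top] at hi
  omega

open Pool.Agent.P8H47.FP in
/-- the index of the radical is at most `[D : F*²]` -/
theorem local_le {F : Type} [Field F] (hfin : (powers F 2).index ≠ 0) {n : ℕ}
    (h : HasLocalSymbol F n) : n ≤ (powers F 2).relIndex (commonPart F) := by
  obtain ⟨B, M, hM, hMD, hi⟩ := h
  rw [← DD_eq] at hMD ⊢
  exact hi.trans (index_le hfin (rad_le (isSymb B) hM) hMD)

/-- Let `F` be a field of characteristic `≠ 2` with `F*/F*²` finite, `K` its maximal 2-extension, `D`
the intersection of all minimal subgroups and all orderings.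

* All quaternion algebras `(s, t)`, `s, t ∈ D`, split if and only if there is no Steinberg symbol
  `B : F* × F* → ℤ/2` with a radical `M` such that `M D = F*`, `[F* : M] ≥ 8` (`≥ 16` if `-1` is a sum
  of two squares in `F`).
* If `[D : F*²] ≤ 4`, or `[D : F*²] ≤ 8` and `-1` is a sum of two squares, then all these algebras
  split, the conclusion of Q1 holds and there is the canonical decomposition of `Gal(K/F)`.
* If `F` has positive characteristic, the conclusion of Q1 holds if and only if there is no such
  symbol with `[F* : M] ≥ 16`. -/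
theorem result (F : Type) [Field F] (h2 : (2 : F) ≠ 0) (hfin : (powers F 2).index ≠ 0)
    (K : IntermediateField F (AlgebraicClosure F)) (hK : IsMaximalPExtension 2 K) :
    (Splits F ↔ ¬ HasLocalSymbol F 8) ∧
    (NegOneSumTwoSquares F → (Splits F ↔ ¬ HasLocalSymbol F 16)) ∧
    ((powers F 2).relIndex (commonPart F) ≤ 4 ∨
        NegOneSumTwoSquares F ∧ (powers F 2).relIndex (commonPart F) ≤ 8 →
      Splits F ∧ ConclusionOfQ1 2 K ∧ Canonical K) ∧
    (∀ ℓ : ℕ, ℓ ≠ 0 → CharP F ℓ → (ConclusionOfQ1 2 K ↔ ¬ HasLocalSymbol F 16)) := by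
  have h8 : Splits F ↔ ¬ HasLocalSymbol F 8 :=
    ⟨fun h => not_local h (by norm_num), fun h => by
      by_contra hS
      exact h (exists_local h2 hfin hK hS).1⟩
  have h16 : NegOneSumTwoSquares F → (Splits F ↔ ¬ HasLocalSymbol F 16) := fun hn =>
    ⟨fun h => not_local h (by norm_num), fun h => by
      by_contra hS
      exact h ((exists_local h2 hfin hK hS).2 hn)⟩
  obtain ⟨-, h3, h4⟩ := Pool.Agent.Results.MP_600e55_nt.FreeProductCriterion.result F h2 hfin K hK
  refine ⟨h8, h16, fun h => ?_, fun ℓ hℓ hc => ?_⟩
  · have hS : Splits F := by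
      rcases h with h | ⟨hn, h⟩
      · rw [h8]
        intro h5
        have := local_le hfin h5
        omega
      · rw [h16 hn]
        intro h5
        have := local_le hfin h5
        omega
    exact ⟨hS, h3 hS⟩
  · rw [h4 ℓ hℓ hc, h16 (sum_two hℓ)]


end Pool.Agent.Results.MP_600e55_nt.LocalSymbols
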