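import Pool.Agent.P8H47.EC2.Thr2

/-!
# Fields with many Steinberg symbols, `p` odd: the elementary shape above `(n - 2) (n - 3) / 2`

`F` is a field with a primitive `p`-th root of unity, `p` odd, and `F*/F*^p` has `p ^ n` elements. The
Steinberg symbols `F* × F* → ℤ/p` form the dual of `K_2(F)/p`, which is isomorphic to
`H²(G_F(p), ℤ/p)` (Merkurjev and Suslin).

A valuation ring `O` of `F` with maximal ideal `m` is compatible with a subgroup `T` of `F*` if
`p ∈ O*`, `1 + m ⊆ T` and `O* T ≠ F*`. `T ⊇ F*^p` is minimal if it has a compatible valuation ring and no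
smaller such group has one.

Theorem. If there are more than `p ^ ((n - 2) (n - 3) / 2)` symbols then one of the following is true.
(a) `F*^p` has a compatible valuation ring; then the conclusion of the conjecture holds, and
`G_F(p)` is itself a decomposition group with nontrivial inertia.
(b) There is `t ∉ F*^p` such that every element of `F*` is a norm from `F(t^(1/p))`, all symbols `c(t, x)`
vanish and `⟨t⟩ F*^p` is minimal (the shape of `G_F(p) = Z * ℤ_p`).
(c) There are exactly two minimal subgroups `T₁`, `T₂`, `F*/F*^p` is their direct product,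
`[F* : T₁] = p²`, `[F* : T₂] = p ^ (n - 2)`, and the symbols are exactly the alternating bimultiplicative
functions which vanish on `T₁ × T₂`, so there are `p ^ ((n - 2) (n - 3) / 2 + 1)` of them (the shape of
`G_F(p) = ℤ_p^(n-2) * ℤ_p²` and of its twisted forms).
For `G_F(p) = ℤ_p^(n-2) * ℤ_p * ℤ_p` the number of symbols is `p ^ ((n - 2) (n - 3) / 2)`.

Outline. Linear algebra gives a subgroup `T` with `[F* : T] ≥ p²` such that the classes joined by symbols
modulo `T` form a partition of `F*/T`, and this gives a valuation ring compatible with `T`. Let `T_1`,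
..., `T_r` be all the minimal subgroups and `D` their intersection. An approximation theorem for the
(pairwise incomparable, possibly dependent) valuation rings shows that `F*/D` is the product of the
`F*/T_i`, that `{x, y}` is in `{D, F*}` if every `T_i` contains `x` or `y`, and that for `t ∈ D`, `x ∈ F*`
there is `z ∈ x D` with `1 + z ∈ t F*^p`; so `{D, F*} = {D, D}`. Counting symbols then shows that
`[D : F*^p] ≤ p`, except if `r = 1` and there are as many symbols as possible; in this case `K_2(F)/p` has a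
quotient which gives another subgroup with a compatible valuation ring that does not contain `D`.

Proved in Lean by helper47, with the coarsening lemma by helper63, linear algebra by helper48,
helper55 and helper72, and the approximation theorem by helper55.
-/

set_option autoImplicit false

namespace Pool.Agent.Results.MP_600e55_nt.ManySymbolsSharp

open Pool.Agent.Results.MP_600e55_nt.SymbolPartitions
open Pool.Agent.Results.MP_600e55_nt.ManySymbols (Symbols)

/-- the valuation ring `O` is compatible with `T`: `p` is a unit of `O`, `1 + m ⊆ T`, and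
`O* T ≠ F*` -/
structure Compatible {F : Type} [Field F] (p : ℕ) (T : Subgroup Fˣ) (O : ValuationSubring F) :
    Prop where
  inv_mem : (p : F)⁻¹ ∈ O
  one_add : ∀ x : F, x ∈ O → x⁻¹ ∉ O → ∃ t ∈ T, (t : F) = 1 + x
  ne_top : O.unitGroup ⊔ T ≠ ⊤

/-- `T` is minimal among the subgroups containing `F*^p` which have a compatible valuation ring -/
structure IsMinimal {F : Type} [Field F] (p : ℕ) (T : Subgroup Fˣ) : Prop where
  le : powers F p ≤ T
  exists_compatible : ∃ O : ValuationSubring F, Compatible p T O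
  minimal : ∀ T' : Subgroup Fˣ, powers F p ≤ T' → T' < T →
    ¬ ∃ O : ValuationSubring F, Compatible p T' O

/-- case (c): `T₁`, `T₂` are the minimal subgroups, `F*/F*^p` is their direct product, the indices
are `p ^ 2` and `p ^ (n - 2)`, all symbols vanish on `T₁ × T₂`, and there are
`p ^ ((n - 2) (n - 3) / 2 + 1)` symbols -/
structure TwoFactors (F : Type) [Field F] (p n : ℕ) (T₁ T₂ : Subgroup Fˣ) : Prop where
  minimal_iff : ∀ T : Subgroup Fˣ, IsMinimal p T ↔ T = T₁ ∨ T = T₂
  inf : T₁ ⊓ T₂ = powers F p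
  sup : T₁ ⊔ T₂ = ⊤
  index₁ : T₁.index = p ^ 2
  index₂ : T₂.index = p ^ (n - 2)
  vanish : ∀ c : Symbols F p, ∀ x ∈ T₁, ∀ y ∈ T₂, c.1 x y = 0 ∧ c.1 y x = 0
  card : Nat.card (Symbols F p) = p ^ ((n - 2) * (n - 3) / 2 + 1)

open Pool.Agent.P8H47.EC in
theorem cp_iff {F : Type} [Field F] {p : ℕ} {T : Subgroup Fˣ} {O : ValuationSubring F} :
    Cp p T O ↔ Compatible p T O :=
  ⟨fun h => ⟨h.1, h.2, h.3⟩, fun h => ⟨h.1, h.2, h.3⟩⟩

open Pool.Agent.P8H47.EC in
theorem minCp_iff {F : Type} [Field F] {p : ℕ} {T : Subgroup Fˣ} :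
    MinCp p T ↔ IsMinimal p T := by
  constructor
  · rintro ⟨h1, ⟨O, h2⟩, h3⟩
    exact ⟨h1, ⟨O, cp_iff.1 h2⟩, fun T' h4 h5 ⟨O', h6⟩ => h3 T' h4 h5 ⟨O', cp_iff.2 h6⟩⟩
  · rintro ⟨h1, ⟨O, h2⟩, h3⟩
    exact ⟨h1, ⟨O, cp_iff.2 h2⟩, fun T' h4 h5 ⟨O', h6⟩ => h3 T' h4 h5 ⟨O', cp_iff.1 h6⟩⟩

open Pool.Agent.P8H47.EC Pool.Agent.P8H47.EC2 Pool.Agent.N908.FR in
/-- the theorem for a given model `V` of the vector space `F*/F*^p` -/
theorem core' (p : ℕ) [Fact p.Prime] (hp2 : p ≠ 2) (F : Type) [Field F]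
    (hζ : ∃ ζ : F, IsPrimitiveRoot ζ p) (n : ℕ) (hn : (powers F p).index = p ^ n)
    (hs : p ^ ((n - 2) * (n - 3) / 2) < Nat.card (Symbols F p))
    (V : Type) [AddCommGroup V] [Module (ZMod p) V] [Finite V] (hV : Nat.card V = p ^ n)
    (q : Fˣ → V) (hq : ∀ a b, q (a * b) = q a + q b) (hsur : Function.Surjective q)
    (hk : ∀ a, q a = 0 ↔ a ∈ powers F p) :
    ((∃ O : ValuationSubring F, IsCompatible p O) ∧
      ∀ K : IntermediateField F (AlgebraicClosure F), IsMaximalPExtension p K →
        IsDecompositionGroup (⊤ : Subgroup (↥K ≃ₐ[F] ↥K)) ∧ ConclusionOfQ1 p K) ∨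
    (∃ t : Fˣ, t ∉ powers F p ∧ normGroup p t = ⊤ ∧
      (∀ c : Symbols F p, ∀ x : Fˣ, c.1 t x = 0 ∧ c.1 x t = 0) ∧
      IsMinimal p (Subgroup.zpowers t ⊔ powers F p)) ∨
    ∃ T₁ T₂ : Subgroup Fˣ, TwoFactors F p n T₁ T₂ := by
  have hp : p.Prime := Fact.out
  have hfin : (powers F p).index ≠ 0 := by
    rw [hn]
    exact (pow_pos hp.pos n).ne'
  have hdim : Module.finrank (ZMod p) V = n := by
    have h2 := Module.natCard_eq_pow_finrank (K := ZMod p) (V := V)
    rw [Nat.card_zmod, hV] at h2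
    exact (Nat.pow_right_injective hp.two_le h2).symm
  have hcard : Nat.card (Symbols F p) =
      Nat.card {c : Fˣ → Fˣ → ZMod p // IsSymbol p F c} := by
    refine Nat.card_congr (Equiv.subtypeEquivRight fun c => ?_)
    exact ⟨fun h => ⟨h.1, h.2.1, h.2.2⟩, fun h => ⟨h.1, h.2, h.3⟩⟩
  have h1 := card_symbols hp2 hq hsur hk
  rw [← hcard] at h1
  have hsym : ∀ c : Symbols F p, IsSymbol p F c.1 := fun c => ⟨c.2.1, c.2.2.1, c.2.2.2⟩
  have h2 : (Module.finrank (ZMod p) V - 2) * (Module.finrank (ZMod p) V - 3) / 2 <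
      Module.finrank (ZMod p) (Forms (ZMod p) (Est q)) := by
    rw [hdim]
    exact (Nat.pow_lt_pow_iff_right hp.one_lt).1 (hs.trans_le h1)
  rcases three hq hsur hk hp2 hζ hfin h2 with h | ⟨t, h3, h4, h5, h6⟩ | ⟨T₁, T₂, h⟩
  · exact Or.inl h
  · refine Or.inr (Or.inl ⟨t, h3, h4, fun c x => ?_, minCp_iff.1 h6⟩)
    have h7 := h5 c.1 (hsym c) x
    exact ⟨h7, by rw [anti hp2 (hsym c), h7, neg_zero]⟩
  · rw [hdim] at h
    refine Or.inr (Or.inr ⟨T₁, T₂, ⟨fun T => ?_, h.inf, h.sup, h.index₁, h.index₂,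
      fun c x hx y hy => ?_, hcard.trans h.card⟩⟩)
    · rw [← minCp_iff]
      constructor
      · exact h.only T
      · rintro (rfl | rfl)
        · exact h.min₁
        · exact h.min₂
    · have h7 := h.symb c.1 (hsym c) x hx y hy
      exact ⟨h7, by rw [anti hp2 (hsym c), h7, neg_zero]⟩

/-- Let `p` be an odd prime and `F` a field with a primitive `p`-th root of unity and
`[F* : F*^p] = p ^ n`. If there are more than `p ^ ((n - 2) (n - 3) / 2)` Steinberg symbols then

(a) there is a valuation ring compatible with `F*^p`, and for the maximal `p`-extension `K` of `F` the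
group `Gal(K/F)` is the decomposition group of a valuation with nontrivial inertia, and the conclusion
of Q1 holds, or

(b) there is `t ∉ F*^p` such that `N(t) = F*`, all symbols `c(t, x)`, `c(x, t)` vanish, and `⟨t⟩ F*^p` is
minimal, or

(c) there are exactly two minimal subgroups `T₁`, `T₂`, `F*/F*^p` is their direct product, the
indices are `p ^ 2` and `p ^ (n - 2)`, all symbols vanish on `T₁ × T₂`, and there are
`p ^ ((n - 2) (n - 3) / 2 + 1)` symbols. -/
theorem result (p : ℕ) [Fact p.Prime] (hp2 : p ≠ 2) (F : Type) [Field F]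
    (hζ : ∃ ζ : F, IsPrimitiveRoot ζ p) (n : ℕ) (hn : (powers F p).index = p ^ n)
    (hs : p ^ ((n - 2) * (n - 3) / 2) < Nat.card (Symbols F p)) :
    ((∃ O : ValuationSubring F, IsCompatible p O) ∧
      ∀ K : IntermediateField F (AlgebraicClosure F), IsMaximalPExtension p K →
        IsDecompositionGroup (⊤ : Subgroup (↥K ≃ₐ[F] ↥K)) ∧ ConclusionOfQ1 p K) ∨
    (∃ t : Fˣ, t ∉ powers F p ∧ normGroup p t = ⊤ ∧
      (∀ c : Symbols F p, ∀ x : Fˣ, c.1 t x = 0 ∧ c.1 x t = 0) ∧
      IsMinimal p (Subgroup.zpowers t ⊔ powers F p)) ∨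
    ∃ T₁ T₂ : Subgroup Fˣ, TwoFactors F p n T₁ T₂ := by
  have hp : p.Prime := Fact.out
  have hfin : (powers F p).index ≠ 0 := by
    rw [hn]
    exact (pow_pos hp.pos n).ne'
  let iG : AddCommGroup (Additive (Fˣ ⧸ powers F p)) := inferInstance
  have hz : ∀ x : Additive (Fˣ ⧸ powers F p), p • x = 0 := fun x => by
    obtain ⟨a, ha⟩ := QuotientGroup.mk_surjective (Additive.toMul x)
    have h1 : p • x = Additive.ofMul ((QuotientGroup.mk a : Fˣ ⧸ powers F p) ^ p) := by
      rw [ha]
      rfl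
    rw [h1, ofMul_eq_zero, ← QuotientGroup.mk_pow, QuotientGroup.eq_one_iff]
    exact ⟨a, rfl⟩
  let _ : Module (ZMod p) (Additive (Fˣ ⧸ powers F p)) := AddCommGroup.zmodModule hz
  have hFin : Finite (Additive (Fˣ ⧸ powers F p)) := by
    have : (powers F p).FiniteIndex := ⟨hfin⟩
    exact inferInstanceAs (Finite (Fˣ ⧸ powers F p))
  refine core' p hp2 F hζ n hn hs (Additive (Fˣ ⧸ powers F p)) ?_
    (fun a => Additive.ofMul (QuotientGroup.mk a)) (fun a b => rfl) ?_ ?_
  · rw [← hn]
    rfl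
  · intro x
    obtain ⟨a, ha⟩ := QuotientGroup.mk_surjective (Additive.toMul x)
    exact ⟨a, congrArg Additive.ofMul ha⟩
  · intro a
    change Additive.ofMul (QuotientGroup.mk a : Fˣ ⧸ powers F p) = 0 ↔ _
    rw [ofMul_eq_zero, QuotientGroup.eq_one_iff]

end Pool.Agent.Results.MP_600e55_nt.ManySymbolsSharp
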